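import Pool.Agent.TMX.Stmts

/-! TMX, row Cov: covered maxima. -/

set_option autoImplicit false

namespace Pool.Agent.TMX.H10

open Finset
open Pool.Agent.TMX
open Pool.Agent.Helper51_Max (I IsMax card_I_pos)
open Pool.Agent.Helper37_EM (g_le card_pos')

theorem mem_I {N v r i : ℕ} : i ∈ I N v r ↔ v ≤ i + r ∧ i ≤ v + r ∧ i ≤ N := by
  unfold Pool.Agent.Helper51_Max.I
  rw [Finset.mem_Icc, Nat.le_min]
  omega

/-- some element of an optimal ball is at least the average -/
theorem some_ge {N : ℕ} {g M : ℕ → ℝ} {v r : ℕ} (hv : v ≤ N)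
    (h : M v * ((I N v r).card : ℝ) = ∑ i ∈ I N v r, g i) : ∃ i ∈ I N v r, M v ≤ g i := by
  by_contra hcon
  push Not at hcon
  have hne : (I N v r).Nonempty := Finset.card_pos.mp (card_I_pos r hv)
  have h1 : ∑ i ∈ I N v r, g i < ∑ _i ∈ I N v r, M v := Finset.sum_lt_sum_of_nonempty hne hcon
  rw [Finset.sum_const, nsmul_eq_mul] at h1
  linarith [mul_comm (M v) ((I N v r).card : ℝ)]

theorem cov : Cov := by
  intro tan N g M k w l hM hB
  constructor
  · intro p y hpy hyl hkp
    by_contra hcon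
    push Not at hcon
    have hlN := hB.lN
    have hyN : y ≤ N := le_trans hyl hlN
    have hpN : p ≤ N := le_trans hpy hyN
    -- an element of the ball left of `y` with value at least `M p`
    have key : ∃ i, i < y ∧ M p ≤ g i := by
      obtain ⟨r, hr⟩ := hM.attained p hpN
      rcases Nat.lt_or_ge (p + r) y with h1 | h1
      · obtain ⟨i, hi, hi2⟩ := some_ge hpN hr
        rw [mem_I] at hi
        exact ⟨i, by omega, hi2⟩
      · obtain ⟨i, hi, hi2, hi3⟩ := (tan N g M hM).1 p y r hpy hyN h1 hr hcon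
        rw [mem_I] at hi
        exact ⟨i, by omega, hi3.le⟩
    obtain ⟨i, hiy, hi⟩ := key
    have hgi : g k < g i := lt_of_lt_of_le hkp hi
    have hwi : w < i := by
      by_contra hw
      push Not at hw
      rcases Nat.le_total i k with h2 | h2
      · exact absurd (hB.up1 i k (Nat.zero_le _) h2 le_rfl) (not_le.mpr hgi)
      · exact absurd (hB.dn1 k i le_rfl h2 hw) (not_le.mpr hgi)
    have h3 : g i ≤ g y := hB.up2 i y hwi.le hiy.le hyl
    have h4 : g y ≤ M y := g_le hM hyN
    linarith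
  · intro q y hky hyq hqN hlq
    by_contra hcon
    push Not at hcon
    have hyN : y ≤ N := le_trans hyq hqN
    have key : ∃ i, y < i ∧ i ≤ N ∧ M q ≤ g i := by
      obtain ⟨r, hr⟩ := hM.attained q hqN
      rcases Nat.lt_or_ge (y + r) q with h1 | h1
      · obtain ⟨i, hi, hi2⟩ := some_ge hqN hr
        rw [mem_I] at hi
        exact ⟨i, by omega, hi.2.2, hi2⟩
      · obtain ⟨i, hi, hi2, hi3⟩ := (tan N g M hM).2 q y r hyq hqN h1 hr hcon
        rw [mem_I] at hi
        exact ⟨i, by omega, hi.2.2, hi3.le⟩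
    obtain ⟨i, hiy, hiN, hi⟩ := key
    have hgi : g l < g i := lt_of_lt_of_le hlq hi
    have hwi : i < w := by
      by_contra hw
      push Not at hw
      rcases Nat.le_total i l with h2 | h2
      · exact absurd (hB.up2 i l hw h2 le_rfl) (not_le.mpr hgi)
      · exact absurd (hB.dn2 l i le_rfl h2 hiN) (not_le.mpr hgi)
    have h3 : g i ≤ g y := hB.dn1 y i hky hiy.le hwi.le
    have h4 : g y ≤ M y := g_le hM hyN
    linarith

end Pool.Agent.TMX.H10
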