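import Pool.Agent.TMX.Stmts5

/-! # Squad TMX, row ORD: order facts -/

set_option autoImplicit false

namespace Pool.Agent.TMX.H10

open Finset

theorem ord : Ord := by
  intro N g M Bad y z y' r c i j hF s t hst
  have h3 : ∀ s t : ℕ, Gap N g M s t → Bad s →
      z s < c s + r s ∧ c s < z s + r s ∧ z s ≤ y s + r s ∧ s < z s ∧ z s < t := by
    intro s t hst hb
    have h := hF.bd s t hst hb
    have h1 := hF.lo s t hst hb
    have h2 := hF.hi s t hst hb
    have h4 := h.geo.yz
    have h5 := h.geo.zz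
    have h6 := h.geo.hy
    have h7 := h.c1
    have h8 := h.c2
    refine ⟨?_, ?_, h6, ?_, ?_⟩ <;> omega
  refine ⟨?_, ?_, h3 s t hst, ?_⟩
  · intro s₁ t₁ h1 ht
    by_cases hs : t₁ ≤ s
    · exact Or.inl hs
    · right
      have hs' : s < t₁ := not_le.1 hs
      have e1 : t₁ = t := by
        by_contra hne
        exact hst.none t₁ hs' (lt_of_le_of_ne ht hne) h1.right
      refine ⟨?_, e1⟩
      have hlt := h1.lt
      rcases lt_trichotomy s₁ s with h | h | h
      · exact absurd hst.left (h1.none s h hs')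
      · exact h
      · exact absurd h1.left (hst.none s₁ h (by omega))
  · intro s₁ t₁ h1 hs
    by_cases ht : t ≤ s₁
    · exact Or.inr ht
    · left
      by_contra hne
      exact hst.none s₁ (lt_of_le_of_ne hs fun h => hne h.symm) (not_le.1 ht) h1.left
  · intro s₁ t₁ h1 hb hb₁ hlt
    have e1 := h3 s t hst hb
    have e2 := h3 s₁ t₁ h1 hb₁
    have e3 := hF.dis s t s₁ t₁ hst h1 hb hb₁ hlt
    refine ⟨?_, ?_, ?_⟩ <;> omega

end Pool.Agent.TMX.H10
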