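import Pool.Agent.TMX.Stmts5

/-! TMX, row SB. -/

namespace Pool.Agent.TMX.H10

open Finset
open Pool.Agent.Helper51_Max (I IsMax)
open Pool.Agent.Helper37_EM (var)
open Pool.Agent.TMX

theorem sB : SB := by
  intro VPl VBad ChB' Ord' LP' N g M Bad y z y' r c i j F s t G St s₁ t₁ hc Q' hQ'
  obtain ⟨G₁, B₁, h1, h2⟩ := hc
  obtain ⟨o1, _, _, _⟩ := Ord' N g M Bad y z y' r c i j F s t G
  obtain ⟨k1, _, _, _, k5⟩ := ChB' N g
  have hst : s < t := G.lt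
  have htN : t ≤ N := G.right.1
  have hvar : var M 0 t = var M 0 s + var M s t := (Pool.Agent.Helper37_EM.var_add (Nat.zero_le s) hst.le)
  have hQv : var M s t = g s + g t - 2 * Qv g M s t := by
    unfold Qv
    ring
  rcases o1 s₁ t₁ G₁ h1 with h3 | ⟨h3, h4⟩
  · have hs₁ : s₁ < s := lt_of_lt_of_le G₁.lt h3
    obtain ⟨p, T, hT, hle⟩ := St.B s₁ t₁ ⟨G₁, B₁, h3, lt_trans hst h2⟩ Q' hQ'
    have hnb : ¬ Bad s := by
      intro hb
      obtain ⟨_, _, q3, q4⟩ := Ord' N g M Bad y z y' r c i j F s₁ t₁ G₁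
      obtain ⟨_, a2, _, _, _⟩ := q3 B₁
      obtain ⟨_, b2, _⟩ := q4 s t G B₁ hb hs₁
      have e1 := (F.bd s t G hb).geo.yz
      have e2 := (F.bd s t G hb).geo.zz
      have e3 := F.hi s t G hb
      omega
    obtain ⟨v, v1, v2, v3⟩ := F.plain s t G hnb
    have hVG := VPl N g M F.max s t v (M v) v1 v2 htN le_rfl
    refine ⟨p, T + (g s + g t - 2 * M v), k1 p s t _ _ hT (k5 s t (M v) hst hVG), ?_⟩
    rw [hvar, hQv, v3]
    linarith
  · subst h3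
    subst h4
    obtain ⟨x, p, T, x1, x2, x3, hT, hle⟩ := (LP' VBad ChB' Ord' N g M Bad y z y' r c i j F s₁ t₁ G B₁ St).1
      (by omega)
    have e1 := (F.bd s₁ t₁ G B₁).geo.yz
    have e2 := (F.bd s₁ t₁ G B₁).geo.zz
    have e3 := F.hi s₁ t₁ G B₁
    have hVG := VPl N g M F.max x t₁ (y' s₁) Q' (by omega) e3 htN hQ'
    refine ⟨p, T + (g x + g t₁ - 2 * Q'), k1 p x t₁ _ _ hT (k5 x t₁ Q' (by omega) hVG), ?_⟩
    have hK := F.Q s₁ t₁ G B₁
    rw [hvar, hQv, hK]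
    linarith

end Pool.Agent.TMX.H10
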